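import Mathlib
import Pool.Agent.Helper974.Star.FinalAll

set_option autoImplicit false

namespace Pool.Agent.Results.MP_03314f_an.ThirdCoeff

open Metric Set

/-- The class `S*(M)`: holomorphic injective functions `f` on the open unit disc with `f 0 = 0`,
`f' 0 = 1`, whose image is star-shaped with respect to `0`, and with `|f z| ≤ M` on the disc. -/
def StarClass (M : ℝ) : Set (ℂ → ℂ) :=
  {f | DifferentiableOn ℂ f (ball 0 1) ∧ InjOn f (ball 0 1) ∧ f 0 = 0 ∧ deriv f 0 = 1 ∧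
    StarConvex ℝ (0 : ℂ) (f '' ball 0 1) ∧ ∀ z ∈ ball (0 : ℂ) 1, ‖f z‖ ≤ M}

/-- The third Taylor coefficient at the origin. -/
noncomputable def coeff3 (f : ℂ → ℂ) : ℂ := iteratedDeriv 3 f 0 / 6

/-- `A₃(M) = sup {|a₃| : f ∈ S*(M)}`. -/
noncomputable def A3 (M : ℝ) : ℝ := sSup ((fun f => ‖coeff3 f‖) '' StarClass M)

/-- The points of the interval `[b, a]`. -/
noncomputable def U (a b ψ : ℝ) : ℝ := (a + b) / 2 + (a - b) / 2 * Real.cos ψ

/-- The complete elliptic integral `∫_b^a F(u) du / √((1 - u²) (a - u) (u - b))`, written with the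
substitution `u = U a b ψ`. -/
noncomputable def ellInt (F : ℝ → ℝ) (a b : ℝ) : ℝ :=
  ∫ ψ in (0 : ℝ)..Real.pi, F (U a b ψ) / Real.sqrt (1 - U a b ψ ^ 2)

/-- The number `T(a, b)`. -/
noncomputable def T (a b : ℝ) : ℝ := ellInt (fun u => u) a b / ellInt (fun _ => 1) a b

/-- The number `c(a, b)`. -/
noncomputable def c (a b : ℝ) : ℝ :=
  ellInt (fun u => u * ((a - u) * (u - b))) a b / ellInt (fun u => (a - u) * (u - b)) a b

/-- The logarithm of the maximum modulus of the two slit map with `z f'/f =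
(1 - 2 T z + z²) / √((1 - 2 a z + z²) (1 - 2 b z + z²))`, `T = T(a, b)`. -/
noncomputable def logMax (a b : ℝ) : ℝ :=
  ∫ t in (0 : ℝ)..1, ((1 - 2 * T a b * t + t ^ 2) /
    (Real.sqrt (1 - 2 * a * t + t ^ 2) * Real.sqrt (1 - 2 * b * t + t ^ 2)) - 1) / t

/-- The two equations (and the range) for the parameters of the extremal function in the middle
regime. -/
def IsParam (M a b : ℝ) : Prop :=
  -1 < b ∧ b < a ∧ a < 1 ∧ a + b < 0 ∧ T a b = a + b + c a b ∧ logMax a b = Real.log M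

/-- The third coefficient of the two slit map. -/
noncomputable def value (a b : ℝ) : ℝ :=
  5 / 4 * (a + b) ^ 2 - 3 * (a + b) * T a b + 2 * T a b ^ 2 - a * b

/-- The third coefficient of bounded starlike functions: `A₃(M)` for every `M > 1`, in three regimes
separated by `Mb` and `M1`, where `e < Mb < M1 < 3.3`. -/
theorem result : ∃ Mb M1 : ℝ, Real.exp 1 < Mb ∧ Mb < M1 ∧ M1 < 33 / 10 ∧
      (∀ M : ℝ, 1 < M → (M = Mb ↔
        (∫ ψ in (0 : ℝ)..Real.pi, Real.sqrt (1 - (1 - 1 / M ^ 2) * Real.cos ψ ^ 2)) =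
          (1 / M) * (Real.sqrt (1 - 1 / M ^ 2) + 1 / M) *
            ∫ ψ in (0 : ℝ)..Real.pi, 1 / Real.sqrt (1 - (1 - 1 / M ^ 2) * Real.cos ψ ^ 2))) ∧
      (∀ M : ℝ, 1 < M → (M = M1 ↔
        (2 * M - 3) * Real.sqrt (1 - 1 / M) = (4 - 5 / M) * Real.log (Real.sqrt M + Real.sqrt (M - 1)))) ∧
      (∀ M : ℝ, 1 < M → M ≤ Mb →
        IsGreatest ((fun f => ‖coeff3 f‖) '' StarClass M) (1 - 1 / M ^ 2) ∧ A3 M = 1 - 1 / M ^ 2) ∧
      (∀ M : ℝ, Mb < M → M < M1 → ∃ a b : ℝ, IsParam M a b ∧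
        (∀ a' b' : ℝ, IsParam M a' b' → a' = a ∧ b' = b) ∧
        IsGreatest ((fun f => ‖coeff3 f‖) '' StarClass M) (value a b) ∧ A3 M = value a b) ∧
      (∀ M : ℝ, M1 ≤ M →
        IsGreatest ((fun f => ‖coeff3 f‖) '' StarClass M) (3 - 8 / M + 5 / M ^ 2) ∧
          A3 M = 3 - 8 / M + 5 / M ^ 2) :=
  Pool.Agent.Helper974.Star3.main

end Pool.Agent.Results.MP_03314f_an.ThirdCoeff
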