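import Mathlib
import Pool.Agent.Helper202.Num
import Pool.Agent.Helper202.Pick

set_option autoImplicit false

namespace Pool.Agent.Results.MP_03314f_an.UpperRange

open Metric Set

/-- The class `S*(M)`: holomorphic injective functions `f` on the open unit disc with `f 0 = 0`,
`f' 0 = 1`, whose image is star-shaped with respect to `0`, and with `|f z| ≤ M` on the disc. -/
def StarClass (M : ℝ) : Set (ℂ → ℂ) :=
  {f | DifferentiableOn ℂ f (ball 0 1) ∧ InjOn f (ball 0 1) ∧ f 0 = 0 ∧ deriv f 0 = 1 ∧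
    StarConvex ℝ (0 : ℂ) (f '' ball 0 1) ∧ ∀ z ∈ ball (0 : ℂ) 1, ‖f z‖ ≤ M}

/-- The third Taylor coefficient at the origin. -/
noncomputable def coeff3 (f : ℂ → ℂ) : ℂ := iteratedDeriv 3 f 0 / 6

/-- `A₃(M) = sup {|a₃| : f ∈ S*(M)}`. -/
noncomputable def A3 (M : ℝ) : ℝ := sSup ((fun f => ‖coeff3 f‖) '' StarClass M)

open Pool.Agent.Helper202.Cert Pool.Agent.Helper202.Red Pool.Agent.Helper202.Num
  Pool.Agent.Helper202.Pick

lemma star_smul {f : ℂ → ℂ} (h : StarConvex ℝ (0 : ℂ) (f '' ball 0 1)) :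
    ∀ w ∈ f '' ball 0 1, ∀ s : ℝ, 0 ≤ s → s ≤ 1 → (s : ℂ) * w ∈ f '' ball 0 1 := by
  intro w hw s hs0 hs1
  have h1 := h hw (show (0 : ℝ) ≤ 1 - s by linarith) hs0 (by ring)
  rw [smul_zero, zero_add, Complex.real_smul] at h1
  exact h1

lemma upper {M : ℝ} (h1 : 33 / 10 ≤ M) (h2 : M ≤ 5) {f : ℂ → ℂ} (hf : f ∈ StarClass M) :
    ‖coeff3 f‖ ≤ 3 - 8 / M + 5 / M ^ 2 := by
  obtain ⟨hd, hinj, h0, hd1, hstar, hM⟩ := hf
  have hMp : 0 < M := by linarith
  obtain ⟨g, hg, hfg⟩ := exists_log hd hinj h0 hd1 (star_smul hstar) hM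
  unfold coeff3
  rw [third_coeff hg.diff hg.zero hfg]
  apply norm_le_of_re _ hg
  intro g hg hx
  have hm1 : 1 / 5 ≤ 1 / M := one_div_le_one_div_of_le hMp h2
  have hm2 : 1 / M ≤ 10 / 33 := by
    rw [div_le_div_iff₀ hMp (by norm_num)]; linarith
  have key := num_main (m := 1 / M) (x := (deriv g 0).re / 2) (y := (deriv (deriv g) 0 / 2).re)
    hm1 hm2 (by linarith) (by
      intro t W ht0 ht1 hW hV
      have hG : 0 ≤ Gam t (1 - W - t / 2) 1 := by
        have h3 := Gam_one (1 - W - t / 2) ht0 ht1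
        unfold Valid at hV
        nlinarith
      have h4 := cert ht0 ht1 (c := 1 - W - t / 2) (by linarith) hG hMp hg.diff hg.zero hg.star hg.bdd
      have h5 : t / (1 / M) = M * t := by field_simp
      rw [h5]
      nlinarith)
  have e : 3 - 8 * (1 / M) + 5 * (1 / M) ^ 2 = 3 - 8 / M + 5 / M ^ 2 := by ring
  rw [e] at key
  exact key

lemma fP_mem {M : ℝ} (hM : 1 < M) : fP (1 / M) ∈ StarClass M := by
  have hMp : 0 < M := by linarith
  have ht : 0 < 1 / M := by positivity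
  have ht1 : 1 / M < 1 := by rw [div_lt_one hMp]; exact hM
  refine ⟨fP_diff ht ht1, fP_inj ht ht1, fP_zero _, fP_deriv ht ht1, ?_, ?_⟩
  · intro w hw a b ha hb hab
    rw [smul_zero, zero_add, Complex.real_smul]
    exact fP_star ht ht1 hw hb (by linarith)
  · intro z hz
    have := fP_norm ht ht1 (z := z) (by simpa using hz)
    rw [one_div_one_div] at this
    exact this.le

lemma fP_coeff {M : ℝ} (h1 : 33 / 10 ≤ M) : ‖coeff3 (fP (1 / M))‖ = 3 - 8 / M + 5 / M ^ 2 := by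
  have hMp : 0 < M := by linarith
  have ht : 0 < 1 / M := by positivity
  have ht1 : 1 / M < 1 := by rw [div_lt_one hMp]; linarith
  unfold coeff3
  rw [fP_third ht ht1, Complex.norm_real, Real.norm_eq_abs]
  have hm2 : 1 / M ≤ 10 / 33 := by
    rw [div_le_div_iff₀ hMp (by norm_num)]; linarith
  rw [abs_of_nonneg (by nlinarith)]
  ring

/-- For `3.3 ≤ M ≤ 5` the sharp bound for the third coefficient of a bounded starlike function is
`3 - 8/M + 5/M²`, it is attained, and hence `A₃(M) = 3 - 8/M + 5/M²`. -/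
theorem result (M : ℝ) (h1 : 33 / 10 ≤ M) (h2 : M ≤ 5) :
    IsGreatest ((fun f => ‖coeff3 f‖) '' StarClass M) (3 - 8 / M + 5 / M ^ 2) ∧
      A3 M = 3 - 8 / M + 5 / M ^ 2 := by
  have h : IsGreatest ((fun f => ‖coeff3 f‖) '' StarClass M) (3 - 8 / M + 5 / M ^ 2) := by
    refine ⟨⟨fP (1 / M), fP_mem (by linarith), fP_coeff h1⟩, ?_⟩
    rintro x ⟨f, hf, rfl⟩
    exact upper h1 h2 hf
  exact ⟨h, h.csSup_eq⟩

end Pool.Agent.Results.MP_03314f_an.UpperRange
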